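import Pool.Agent.H2.NL.Basic

/-!
# The tensor `h` (board nil_modules, row HTE)
-/

set_option autoImplicit false

open Matrix Pool.Agent.H2.NL Pool.Agent.H64.CC

namespace Pool.Agent.H70.NL

theorem pf_HTE : T_HTE := by
  intro K _ _ I _ _ F A hC c1 c2 m h1 h2 hsym hc1
  -- parity
  have hpar : ∀ r d, c1 r d ≠ 0 → F.o r = F.o d := by
    intro r d hne
    have h3 := hC.even 1 (two (Matrix.of c1)) [r, d] h1 (by simp) hne
    revert h3
    unfold odds
    cases hr : F.o r <;> cases hd : F.o d <;> simp [List.filter, hr, hd]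
  obtain ⟨t1, ht1⟩ : ∃ t1 : List I → K, t1 = sw F.o 2 (sw F.o 1 (tp 2 (two F.ω)
    (sw F.o 0 (two (Matrix.of c1))))) := ⟨_, rfl⟩
  obtain ⟨t2, ht2⟩ : ∃ t2 : List I → K, t2 = sw F.o 1 (sw F.o 2 (four c2)) := ⟨_, rfl⟩
  have mem1 : t1 ∈ A 2 := by
    rw [ht1]
    have e0 : sw F.o 0 (two (Matrix.of c1)) ∈ A 1 := hC.sw 1 0 _ h1 (by norm_num)
    have e1 : tp 2 (two F.ω) (sw F.o 0 (two (Matrix.of c1))) ∈ A 2 := hC.tp 1 1 _ _ hC.om e0
    exact hC.sw 2 2 _ (hC.sw 2 1 _ e1 (by norm_num)) (by norm_num)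
  have mem2 : t2 ∈ A 2 := by
    rw [ht2]
    exact hC.sw 2 1 _ (hC.sw 2 2 _ h2 (by norm_num)) (by norm_num)
  have v1 : ∀ a d r s, t1 [a, d, r, s] = ks K (F.o r) (F.o s) * (ks K (F.o d) (F.o s) *
      (F.ω a s * (ks K (F.o d) (F.o r) * c1 r d))) := by
    intro a d r s
    rw [ht1]
    rfl
  have v2 : ∀ a d r s, t2 [a, d, r, s] = ks K (F.o d) (F.o r) * (ks K (F.o d) (F.o s) *
      c2 a r s d) := by
    intro a d r s
    rw [ht2]
    rfl
  have hω : ∀ a p, F.ω a (F.st p) = if a = p then F.c (F.st p) else 0 := by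
    intro a p
    have e : F.ω a (F.st p) = if F.st p = F.st a then F.c (F.st p) else 0 := rfl
    rw [e]
    by_cases h : a = p
    · rw [if_pos h, if_pos (by rw [h])]
    · rw [if_neg h, if_neg]
      intro h'
      exact h (F.st_inj h').symm
  have g1 : ∀ a d p q, M4 F t1 (a, d) (p, q) =
      if a = p then ks K (F.o d) (F.o q) * (F.c (F.st q) * c1 (F.st q) d) else 0 := by
    intro a d p q
    have e : M4 F t1 (a, d) (p, q) =
      t1 [a, d, F.st q, F.st p] * (F.c (F.st p) * F.c (F.st q)) := rfl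
    rw [e, v1, hω, F.o_st, F.o_st]
    by_cases h : a = p
    · rw [if_pos h, if_pos h]
      by_cases h0 : c1 (F.st q) d = 0
      · rw [h0]
        ring
      · have h3 := hpar _ _ h0
        rw [F.o_st] at h3
        have h4 := F.c_mul_self (F.st p)
        have h5 := ks_mul_self K (F.o q) (F.o p)
        rw [← h3]
        calc _ = (ks K (F.o q) (F.o p) * ks K (F.o q) (F.o p)) *
              (F.c (F.st p) * F.c (F.st p)) *
              (ks K (F.o q) (F.o q) * (F.c (F.st q) * c1 (F.st q) d)) := by ring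
          _ = _ := by rw [h4, h5, one_mul, one_mul]
    · rw [if_neg h, if_neg h]
      ring
  have g2 : ∀ a d p q, M4 F t2 (a, d) (p, q) =
      ks K (F.o d) (F.o q) * ks K (F.o d) (F.o p) * (F.c (F.st p) * F.c (F.st q)) *
        c2 a (F.st q) (F.st p) d := by
    intro a d p q
    have e : M4 F t2 (a, d) (p, q) =
      t2 [a, d, F.st q, F.st p] * (F.c (F.st p) * F.c (F.st q)) := rfl
    rw [e, v2, F.o_st, F.o_st]
    ring
  have g : ∀ x y, M4 F (t1 + m • t2) x y = M4 F t1 x y + (m : K) * M4 F t2 x y := by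
    intro x y
    have e : M4 F (t1 + m • t2) x y = (t1 [x.1, x.2, F.st y.2, F.st y.1] +
      m • t2 [x.1, x.2, F.st y.2, F.st y.1]) * (F.c (F.st y.1) * F.c (F.st y.2)) := rfl
    have e1 : M4 F t1 x y =
      t1 [x.1, x.2, F.st y.2, F.st y.1] * (F.c (F.st y.1) * F.c (F.st y.2)) := rfl
    have e2 : M4 F t2 x y =
      t2 [x.1, x.2, F.st y.2, F.st y.1] * (F.c (F.st y.1) * F.c (F.st y.2)) := rfl
    rw [e, e1, e2, Rat.smul_def]
    ring
  -- the contraction of `c1`
  have hs1 : ∑ d, F.c (F.st d) * c1 (F.st d) d = ∑ a, F.c a * c1 a (F.st a) := by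
    rw [← F.sum_st (fun a => F.c a * c1 a (F.st a))]
    refine Finset.sum_congr rfl fun d _ => ?_
    rw [F.st_st]
  have hs2 : ∀ d, ks K (F.o d) (F.o d) = sg K (F.o d) := fun d => ks_self K _
  have hsg : ∀ d, sg K (F.o d) * sg K (F.o d) = 1 := fun d => sg_mul_self K _
  refine ⟨t1 + m • t2, (A 2).add_mem mem1 ((A 2).smul_mem m mem2), ?_, ?_, ?_⟩
  · intro x p q hp hq
    obtain ⟨a, d⟩ := x
    rw [g, g, g1, g1, g2, g2]
    have k1 : ∀ p' q', F.o p' = true → F.o q' = true →
        (if a = p' then ks K (F.o d) (F.o q') * (F.c (F.st q') * c1 (F.st q') d) else 0) =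
        if a = p' then F.c q' * c1 (F.st q') d else 0 := by
      intro p' q' hp' hq'
      by_cases h : a = p'
      · rw [if_pos h, if_pos h]
        by_cases h0 : c1 (F.st q') d = 0
        · rw [h0]
          ring
        · have h3 := hpar _ _ h0
          rw [F.o_st] at h3
          rw [← h3, F.c_st, hq', ks_self, sg_true]
          ring
      · rw [if_neg h, if_neg h]
    have k2 : ks K (F.o d) (F.o q) * ks K (F.o d) (F.o p) = 1 := by
      rw [hp, hq, ks_mul_self]
    have k3 : F.c (F.st p) * F.c (F.st q) = F.c p * F.c q := by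
      rw [F.c_st, F.c_st, hp, hq, sg_true]
      ring
    have k2' : ks K (F.o d) (F.o p) * ks K (F.o d) (F.o q) = 1 := by rw [mul_comm, k2]
    have k3' : F.c (F.st q) * F.c (F.st p) = F.c p * F.c q := by rw [mul_comm, k3]
    rw [k1 p q hp hq, k1 q p hq hp, k2, k2', k3, k3']
    ring
  · have e : str2 F (M4 F (t1 + m • t2)) = ∑ a, ∑ d, sg K (F.o a) * sg K (F.o d) *
        (M4 F t1 (a, d) (a, d) + (m : K) * M4 F t2 (a, d) (a, d)) := by
      unfold str2
      rw [Fintype.sum_prod_type]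
      refine Finset.sum_congr rfl fun a _ => Finset.sum_congr rfl fun d _ => ?_
      rw [g]
    have e1 : ∀ a d, sg K (F.o a) * sg K (F.o d) * M4 F t1 (a, d) (a, d) =
        sg K (F.o a) * (F.c (F.st d) * c1 (F.st d) d) := by
      intro a d
      rw [g1, if_pos rfl, hs2]
      calc _ = (sg K (F.o d) * sg K (F.o d)) * (sg K (F.o a) * (F.c (F.st d) *
            c1 (F.st d) d)) := by ring
        _ = _ := by rw [hsg, one_mul]
    have e2 : ∀ a d, sg K (F.o a) * sg K (F.o d) * M4 F t2 (a, d) (a, d) =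
        F.c (F.st d) * (F.c a * c2 (F.st d) a (F.st a) d) := by
      intro a d
      rw [g2, hs2, hsym a (F.st d) (F.st a) d, F.o_st, ks_comm K (F.o a) (F.o d)]
      calc _ = (sg K (F.o d) * sg K (F.o d)) * (ks K (F.o d) (F.o a) * ks K (F.o d) (F.o a)) *
            (F.c (F.st d) * ((sg K (F.o a) * F.c (F.st a)) * c2 (F.st d) a (F.st a) d)) := by ring
        _ = _ := by rw [hsg, ks_mul_self, F.sg_c_st, one_mul, one_mul]
    rw [e]
    have e3 : ∀ a d, sg K (F.o a) * sg K (F.o d) *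
        (M4 F t1 (a, d) (a, d) + (m : K) * M4 F t2 (a, d) (a, d)) =
        sg K (F.o a) * (F.c (F.st d) * c1 (F.st d) d) +
        (m : K) * (F.c (F.st d) * (F.c a * c2 (F.st d) a (F.st a) d)) := by
      intro a d
      rw [← e1, ← e2]
      ring
    simp only [e3, Finset.sum_add_distrib]
    have e4 : ∑ a, ∑ d, sg K (F.o a) * (F.c (F.st d) * c1 (F.st d) d) =
        F.sd * ∑ a, F.c a * c1 a (F.st a) := by
      rw [← hs1, Form.sd, Finset.sum_mul]
      refine Finset.sum_congr rfl fun a _ => ?_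
      rw [Finset.mul_sum]
    have e5 : ∑ a, ∑ d, (m : K) * (F.c (F.st d) * (F.c a * c2 (F.st d) a (F.st a) d)) =
        (m : K) * ∑ a, F.c a * c1 a (F.st a) := by
      rw [Finset.sum_comm, ← hs1, Finset.mul_sum]
      refine Finset.sum_congr rfl fun d _ => ?_
      rw [hc1 (F.st d) d, Finset.mul_sum, Finset.mul_sum]
    rw [e4, e5]
    ring
  · have hS : ∀ a d, (M4 F (t1 + m • t2) * Sx F) (a, d) (a, d) =
        (M4 F t1 (a, d) (d, a) + (m : K) * M4 F t2 (a, d) (d, a)) * ks K (F.o d) (F.o a) := by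
      intro a d
      rw [Matrix.mul_apply, Finset.sum_eq_single (d, a)]
      · rw [g]
        have : Sx F (d, a) (a, d) = if d = d ∧ a = a then ks K (F.o d) (F.o a) else 0 := rfl
        rw [this, if_pos ⟨rfl, rfl⟩]
      · intro z _ hz
        have : Sx F z (a, d) = if z.1 = d ∧ z.2 = a then ks K (F.o z.1) (F.o z.2) else 0 := rfl
        rw [this, if_neg, mul_zero]
        rintro ⟨h1, h2⟩
        exact hz (Prod.ext h1 h2)
      · intro h
        exact absurd (Finset.mem_univ _) h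
    have e : str2 F (M4 F (t1 + m • t2) * Sx F) = ∑ a, ∑ d, sg K (F.o a) * sg K (F.o d) *
        ((M4 F t1 (a, d) (d, a) + (m : K) * M4 F t2 (a, d) (d, a)) * ks K (F.o d) (F.o a)) := by
      unfold str2
      rw [Fintype.sum_prod_type]
      refine Finset.sum_congr rfl fun a _ => Finset.sum_congr rfl fun d _ => ?_
      rw [hS]
    have e1 : ∀ a d, sg K (F.o a) * sg K (F.o d) * (M4 F t1 (a, d) (d, a) *
        ks K (F.o d) (F.o a)) = if a = d then F.c (F.st a) * c1 (F.st a) a else 0 := by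
      intro a d
      rw [g1]
      by_cases h : a = d
      · rw [if_pos h, if_pos h, ← h]
        calc _ = (sg K (F.o a) * sg K (F.o a)) * (ks K (F.o a) (F.o a) * ks K (F.o a) (F.o a)) *
              (F.c (F.st a) * c1 (F.st a) a) := by ring
          _ = _ := by rw [hsg, ks_mul_self, one_mul, one_mul]
      · rw [if_neg h, if_neg h]
        ring
    have e2 : ∀ a d, sg K (F.o a) * sg K (F.o d) * (M4 F t2 (a, d) (d, a) *
        ks K (F.o d) (F.o a)) = F.c a * F.c (F.st d) * c2 a (F.st a) (F.st d) d := by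
      intro a d
      rw [g2, hs2]
      calc _ = (sg K (F.o d) * sg K (F.o d)) * (ks K (F.o d) (F.o a) * ks K (F.o d) (F.o a)) *
            ((sg K (F.o a) * F.c (F.st a)) * F.c (F.st d) * c2 a (F.st a) (F.st d) d) := by ring
        _ = _ := by rw [hsg, ks_mul_self, F.sg_c_st, one_mul, one_mul]
    have e3 : ∀ a d, sg K (F.o a) * sg K (F.o d) *
        ((M4 F t1 (a, d) (d, a) + (m : K) * M4 F t2 (a, d) (d, a)) * ks K (F.o d) (F.o a)) =
        (if a = d then F.c (F.st a) * c1 (F.st a) a else 0) +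
        (m : K) * (F.c a * F.c (F.st d) * c2 a (F.st a) (F.st d) d) := by
      intro a d
      rw [← e1, ← e2]
      ring
    rw [e]
    simp only [e3, Finset.sum_add_distrib]
    have e4 : ∑ a, ∑ d, (if a = d then F.c (F.st a) * c1 (F.st a) a else 0) =
        ∑ a, F.c a * c1 a (F.st a) := by
      rw [← hs1]
      refine Finset.sum_congr rfl fun a _ => ?_
      rw [Finset.sum_ite_eq, if_pos (Finset.mem_univ _)]
    rw [e4, Finset.mul_sum]
    congr 1
    refine Finset.sum_congr rfl fun a _ => ?_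
    rw [Finset.mul_sum]

end Pool.Agent.H70.NL
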